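import Pool.Agent.H51.MFQ.S1

/-!
# Board mfm (MP_84bfea_al): metabelian Lie algebras, every `a`.  Typed Props

Text: team-store `MFM_PLAN_helper51.md`.
-/

set_option autoImplicit false

open Module MvPolynomial

namespace Pool.MFM

open Pool.MFQ

/-! ## 1. Kernel vectors and tensors -/

section Core

/-- Iterated operators: `itD D [i₁, …, i_k] m = D i₁ (⋯ (D i_k m))`. -/
def itD {ι M : Type} (D : ι → M → M) : List ι → M → M
  | [], m => m
  | i :: L, m => D i (itD D L m)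

/-- A module with commuting derivation operators and a closed one-form `g`. -/
structure DMod (O M ι : Type) [CommRing O] [AddCommGroup M] [Module O M] where
  d : ι → O → O
  D : ι → M → M
  g : ι → M
  d_add : ∀ i a b, d i (a + b) = d i a + d i b
  d_mul : ∀ i a b, d i (a * b) = d i a * b + a * d i b
  D_add : ∀ i m m', D i (m + m') = D i m + D i m'
  D_smul : ∀ i (a : O) m, D i (a • m) = d i a • m + a • D i m
  D_comm : ∀ i j m, D i (D j m) = D j (D i m)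
  sym : ∀ i j, D i (g j) = D j (g i)

/-- KLS: if the vectors `κ r` are killed by `a • D g` then so are the higher contractions. -/
def KLSStmt : Prop :=
  ∀ (O M ι : Type) [CommRing O] [AddCommGroup M] [Module O M] [Fintype ι] (S : DMod O M ι)
    (a : O), (∀ i, ∃ b, S.d i a = a * b) →
    ∀ (k : ℕ) (κ : Fin (k + 1) → ι → O),
      (∀ r c, a • ∑ b, κ r b • S.D b (S.g c) = 0) →
      ∀ c, a • ∑ b : Fin (k + 1) → ι, (∏ r, κ r (b r)) • itD S.D (List.ofFn b) (S.g c) = 0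

/-- SMI: submodules of a free module over a principal ideal domain. -/
def SMIStmt : Prop :=
  ∀ (O ι : Type) [CommRing O] [IsDomain O] [IsPrincipalIdealRing O] [Fintype ι]
    (N : Submodule O (ι → O)),
    ∃ (e : Basis ι O (ι → O)) (a : ι → O), ∀ x, x ∈ N ↔ ∀ i, a i ∣ e.repr x i

/-- TEN: a tensor all of whose slots are killed by `D g` is killed by the higher derivatives. -/
def TENStmt : Prop :=
  ∀ (O M ι : Type) [CommRing O] [IsDomain O] [IsPrincipalIdealRing O] [AddCommGroup M]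
    [Module O M] [Fintype ι] (S : DMod O M ι), (∀ a b : O, a ∣ b ∨ b ∣ a) →
    (∀ (a : O) i, ∃ b, S.d i a = a * b) →
    ∀ (k : ℕ) (t : (Fin (k + 1) → ι) → O),
      (∀ (b : Fin (k + 1) → ι) r c, ∑ x, t (Function.update b r x) • S.D x (S.g c) = 0) →
      ∀ c, ∑ b, t b • itD S.D (List.ofFn b) (S.g c) = 0

/-- The iterated partial derivative. -/
noncomputable def itP {R ι : Type} [CommRing R] (L : List ι) (F : MvPolynomial ι R) :
    MvPolynomial ι R := itD (fun i => ⇑(pderiv i : Derivation R (MvPolynomial ι R) _)) L F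

/-- LMA: the same for the derivatives of a polynomial. -/
def LMAStmt : Prop :=
  ∀ (O M ι : Type) [CommRing O] [IsDomain O] [IsPrincipalIdealRing O] [AddCommGroup M]
    [Module O M] [Fintype ι] (S : DMod O M ι), (∀ a b : O, a ∣ b ∨ b ∣ a) →
    (∀ (a : O) i, ∃ b, S.d i a = a * b) →
    ∀ F : MvPolynomial ι O,
      (∀ γ c, ∑ b, coeff γ (pderiv b F) • S.D b (S.g c) = 0) →
      ∀ (k : ℕ) γ c, ∑ b : Fin (k + 1) → ι,
        coeff γ (itP (List.ofFn b) F) • itD S.D (List.ofFn b) (S.g c) = 0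

end Core

/-! ## 2. The powers of a linear form -/

section One

/-- `d` on the coefficients. -/
noncomputable def dco {K : Type} [CommRing K] (d : K → K) (p : Polynomial K) : Polynomial K :=
  ∑ n ∈ p.support, Polynomial.monomial n (d (p.coeff n))

/-- The components of `(t + y + h d) ^ n` applied to `1`: `wq d y n i` is the coefficient of
`h ^ i`, a polynomial in `t`. -/
noncomputable def wq {K : Type} [CommRing K] (d : K → K) (y : K) : ℕ → ℕ → Polynomial K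
  | 0, 0 => 1
  | 0, _ + 1 => 0
  | n + 1, 0 => (Polynomial.X + Polynomial.C y) * wq d y n 0
  | n + 1, i + 1 => (Polynomial.X + Polynomial.C y) * wq d y n (i + 1) + dco d (wq d y n i)

/-- ONE: the two differential equations. -/
def ONEStmt : Prop :=
  ∀ (K : Type) [CommRing K] [Algebra ℂ K] (ds da : Derivation ℂ K K),
    (∀ x, ds (da x) = da (ds x)) → ∀ (y : K) (n i : ℕ),
    (dco da (wq ds y n i) = ∑ k ∈ Finset.range (i + 1),
      Polynomial.C ((((k + 1).factorial : ℕ) : ℂ)⁻¹ • da ((⇑ds)^[k] y)) *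
        Polynomial.derivative^[k + 1] (wq ds y n (i - k))) ∧
    (((i + 1 : ℕ) : ℂ) • wq ds y n (i + 1) = ∑ k ∈ Finset.range (i + 1),
      Polynomial.C ((((k + 1 : ℕ) : ℂ) * (((k + 2).factorial : ℕ) : ℂ)⁻¹) • (⇑ds)^[k + 1] y) *
        Polynomial.derivative^[k + 2] (wq ds y n (i - k)))

/-- `d` on the coefficients. -/
noncomputable def dcM {K ι : Type} [CommRing K] (d : K → K) (F : MvPolynomial ι K) :
    MvPolynomial ι K := ∑ γ ∈ F.support, monomial γ (d (coeff γ F))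

/-- The linear form with coefficients `s`. -/
noncomputable def sT {K ι : Type} [CommRing K] [Fintype ι] (s : ι → K) : MvPolynomial ι K :=
  ∑ b, C (s b) * X b

/-- The components of the quantisation of `∑ j, c j (s j · (T + g)) ^ n j`. -/
noncomputable def Wp {K ι J : Type} [CommRing K] [Algebra ℂ K] [Fintype ι] [Fintype J]
    (δ : ι → Derivation ℂ K K) (g : ι → K) (c : J → K) (s : J → ι → K) (n : J → ℕ) (i : ℕ) :
    MvPolynomial ι K :=
  ∑ j, C (c j) * Polynomial.aeval (sT (s j))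
    (wq (fun x => ∑ b, s j b * δ b x) (∑ b, s j b * g b) (n j) i)

/-- The operator `A_k`. -/
noncomputable def Aop {K ι : Type} [CommRing K] [Algebra ℂ K] [Fintype ι]
    (δ : ι → Derivation ℂ K K) (g : ι → K) (k : ℕ) (a : ι) (F : MvPolynomial ι K) :
    MvPolynomial ι K :=
  ∑ b : Fin k → ι, ∑ e, C (δ a (itD (fun i => ⇑(δ i)) (List.ofFn b) (g e))) *
    pderiv e (itP (List.ofFn b) F)

/-- ILA: the differential equations for `Wp`. -/
def ILAStmt : Prop :=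
  ∀ (K ι J : Type) [CommRing K] [Algebra ℂ K] [Fintype ι] [Fintype J]
    (δ : ι → Derivation ℂ K K) (g : ι → K) (c : J → K) (s : J → ι → K) (n : J → ℕ),
    (∀ i j x, δ i (δ j x) = δ j (δ i x)) → (∀ a j, δ a (c j) = 0) →
    (∀ a j b, δ a (s j b) = 0) →
    (∀ i a, dcM (δ a) (Wp δ g c s n i) = ∑ k ∈ Finset.range (i + 1),
      (((k + 1).factorial : ℕ) : ℂ)⁻¹ • Aop δ g k a (Wp δ g c s n (i - k))) ∧
    (∀ i, ((i + 1 : ℕ) : ℂ) • Wp δ g c s n (i + 1) = ∑ k ∈ Finset.range (i + 1),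
      (((k + 1 : ℕ) : ℂ) * (((k + 2).factorial : ℕ) : ℂ)⁻¹) •
        ∑ a, pderiv a (Aop δ g k a (Wp δ g c s n (i - k))))

/-- ILB: integrality of the quantisation. -/
def ILBStmt : Prop :=
  ∀ (O K ι J : Type) [CommRing O] [IsDomain O] [IsPrincipalIdealRing O] [Algebra ℂ O]
    [CommRing K] [Algebra ℂ K] [Algebra O K] [IsScalarTower ℂ O K] [Fintype ι] [Fintype J]
    (δ : ι → Derivation ℂ K K) (d : ι → Derivation ℂ O O) (g : ι → K) (c : J → K)
    (s : J → ι → K) (n : J → ℕ),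
    Function.Injective (algebraMap O K) →
    (∀ i a, δ i (algebraMap O K a) = algebraMap O K (d i a)) →
    (∀ i j x, δ i (δ j x) = δ j (δ i x)) → (∀ a b : O, a ∣ b ∨ b ∣ a) →
    (∀ (a : O) i, ∃ b, d i a = a * b) →
    (∀ a b, ∃ r : O, δ a (g b) - δ b (g a) = algebraMap O K r) →
    (∀ a j, δ a (c j) = 0) → (∀ a j b, δ a (s j b) = 0) →
    (∀ γ, ∃ r : O, coeff γ (Wp δ g c s n 0) = algebraMap O K r) →
    ∀ i γ, ∃ r : O, coeff γ (Wp δ g c s n i) = algebraMap O K r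

end One

/-! ## 3. Divisibility -/

section Div

/-- DEX: derivations extend uniquely to the field of fractions. -/
def DEXStmt : Prop :=
  ∀ (B K : Type) [CommRing B] [IsDomain B] [Algebra ℂ B] [Field K] [Algebra ℂ K] [Algebra B K]
    [IsScalarTower ℂ B K], Function.Injective (algebraMap B K) →
    (∀ x : K, ∃ a b : B, b ≠ 0 ∧ x * algebraMap B K b = algebraMap B K a) →
    (∀ D : Derivation ℂ B B, ∃ D' : Derivation ℂ K K,
      ∀ b, D' (algebraMap B K b) = algebraMap B K (D b)) ∧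
    (∀ D' : Derivation ℂ K K, (∀ b, D' (algebraMap B K b) = 0) → D' = 0)

/-- PIV: reduced echelon form with integral entries. -/
def PIVStmt : Prop :=
  ∀ (K ι τ : Type) [Field K] [Fintype ι] [DecidableEq ι] [Fintype τ] (I : Subring K)
    (K₀ : Subfield K), (∀ x : K, x ∈ I ∨ x⁻¹ ∈ I) →
    ∀ r : ι → τ → K, LinearIndependent K r → (∀ a i, r a i ∈ K₀) →
    ∃ (f : ι → τ) (N N' : Matrix ι ι K), N * N' = 1 ∧ N' * N = 1 ∧
      (∀ a b, N a b ∈ K₀ ∧ N' a b ∈ K₀) ∧ (∀ a i, ∑ b, N a b * r b i ∈ I) ∧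
      ∀ a c, ∑ b, N a b * r b (f c) = if a = c then 1 else 0

/-- LCZ: the local ring of a polynomial ring at a prime element. -/
def LCZStmt : Prop :=
  ∀ (σ : Type) [Fintype σ] (p : MvPolynomial σ ℂ), Prime p →
    ∃ (O : Type) (_ : CommRing O) (_ : IsDomain O) (_ : IsPrincipalIdealRing O)
      (_ : Algebra ℂ O) (_ : Algebra (MvPolynomial σ ℂ) O)
      (_ : IsScalarTower ℂ (MvPolynomial σ ℂ) O),
      Function.Injective (algebraMap (MvPolynomial σ ℂ) O) ∧ (∀ a b : O, a ∣ b ∨ b ∣ a) ∧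
      (∀ x : O, ∃ a b : MvPolynomial σ ℂ, ¬ p ∣ b ∧
        x * algebraMap (MvPolynomial σ ℂ) O b = algebraMap (MvPolynomial σ ℂ) O a) ∧
      (∀ b : MvPolynomial σ ℂ, ¬ p ∣ b → IsUnit (algebraMap (MvPolynomial σ ℂ) O b)) ∧
      (∀ (c : MvPolynomial σ ℂ) (e : ℕ), algebraMap (MvPolynomial σ ℂ) O (p ^ e) ∣
        algebraMap (MvPolynomial σ ℂ) O c → p ^ e ∣ c) ∧
      (∀ x : O, x ≠ 0 → ∃ (e : ℕ) (u : O), IsUnit u ∧
        x = algebraMap (MvPolynomial σ ℂ) O (p ^ e) * u)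

/-- LDG: a derivation of a discrete valuation ring which kills an element divisible by the
uniformiser preserves divisibility. -/
def LDGStmt : Prop :=
  ∀ (O : Type) [CommRing O] [IsDomain O] [Algebra ℂ O] (p : O),
    (∀ x : O, x ≠ 0 → ∃ (e : ℕ) (u : O), IsUnit u ∧ x = p ^ e * u) → ¬ IsUnit p →
    ∀ (d : Derivation ℂ O O) (Δ : O), Δ ≠ 0 → p ∣ Δ → d Δ = 0 → ∀ a : O, ∃ b, d a = a * b

/-- The components of the quantisation of the powers of an element of `S(V) + S(V)·h`. -/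
noncomputable def wL {σ τ : Type} [Fintype τ]
    (D : τ → Derivation ℂ (MvPolynomial σ ℂ) (MvPolynomial σ ℂ)) (P : Lm σ τ) :
    ℕ → ℕ → MvPolynomial τ (MvPolynomial σ ℂ)
  | 0, 0 => 1
  | 0, _ + 1 => 0
  | n + 1, 0 => toP P * wL D P n 0
  | n + 1, i + 1 => toP P * wL D P n (i + 1) + dcM (dvG D P) (wL D P n i)

/-- SUB: comparison of `wL` with `wq`. -/
def SUBStmt : Prop :=
  ∀ (σ τ K : Type) [Fintype τ] [CommRing K] [Algebra ℂ K] [Algebra (MvPolynomial σ ℂ) K]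
    [IsScalarTower ℂ (MvPolynomial σ ℂ) K]
    (D : τ → Derivation ℂ (MvPolynomial σ ℂ) (MvPolynomial σ ℂ)) (D' : τ → Derivation ℂ K K)
    (P : Lm σ τ),
    (∀ i b, D' i (algebraMap (MvPolynomial σ ℂ) K b) = algebraMap (MvPolynomial σ ℂ) K (D i b)) →
    (∀ i, dvG D P (P.2 i) = 0) → ∀ n i,
    map (algebraMap (MvPolynomial σ ℂ) K) (wL D P n i) =
      Polynomial.aeval (∑ i, C (algebraMap (MvPolynomial σ ℂ) K (P.2 i)) * X i : MvPolynomial τ K)
        (wq (fun x => ∑ i, algebraMap (MvPolynomial σ ℂ) K (P.2 i) * D' i x)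
          (algebraMap (MvPolynomial σ ℂ) K P.1) n i)

/-- The hypotheses on a commuting family and an element `F` of the algebra it generates after
inverting `Δ`. -/
structure DHyp {σ τ ι J : Type} [Fintype τ] [Fintype ι] [Fintype J]
    (D : τ → Derivation ℂ (MvPolynomial σ ℂ) (MvPolynomial σ ℂ)) (β : τ → τ → MvPolynomial σ ℂ)
    (P : ι → Lm σ τ) (Δ : MvPolynomial σ ℂ) (N : ℕ) (c : J → MvPolynomial σ ℂ)
    (s : J → ι → ℂ) (n : J → ℕ) (F : MvPolynomial τ (MvPolynomial σ ℂ)) : Prop where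
  comm : ∀ i j x, D i (D j x) = D j (D i x)
  const : ∀ a b i, dvG D (P a) ((P b).2 i) = 0
  pois : ∀ a b, ∑ i, ∑ j, (P a).2 i * (P b).2 j * β i j + dvG D (P a) (P b).1 -
    dvG D (P b) (P a).1 = 0
  indep : LinearIndependent (MvPolynomial σ ℂ) (fun a => (P a).2)
  ne : Δ ≠ 0
  cΔ : ∀ a, dvG D (P a) Δ = 0
  cc : ∀ a j, dvG D (P a) (c j) = 0
  eq : ∑ j, C (c j) * toP (∑ a, s j a • P a) ^ n j = C (Δ ^ N) * F

/-- DVP: divisibility by a power of a prime. -/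
def DVPStmt : Prop :=
  ∀ (σ τ ι J : Type) [Fintype σ] [Fintype τ] [Fintype ι] [Fintype J]
    (D : τ → Derivation ℂ (MvPolynomial σ ℂ) (MvPolynomial σ ℂ)) (β : τ → τ → MvPolynomial σ ℂ)
    (P : ι → Lm σ τ) (Δ : MvPolynomial σ ℂ) (N : ℕ) (c : J → MvPolynomial σ ℂ)
    (s : J → ι → ℂ) (n : J → ℕ) (F : MvPolynomial τ (MvPolynomial σ ℂ)),
    DHyp D β P Δ N c s n F → ∀ (p : MvPolynomial σ ℂ) (e : ℕ), Prime p → p ∣ Δ →
    p ^ e ∣ Δ ^ N → ∀ i γ, p ^ e ∣ coeff γ (∑ j, C (c j) * wL D (∑ a, s j a • P a) (n j) i)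

/-- DIV: divisibility by the power of `Δ`. -/
def DIVStmt : Prop :=
  ∀ (σ τ ι J : Type) [Fintype σ] [Fintype τ] [Fintype ι] [Fintype J]
    (D : τ → Derivation ℂ (MvPolynomial σ ℂ) (MvPolynomial σ ℂ)) (β : τ → τ → MvPolynomial σ ℂ)
    (P : ι → Lm σ τ) (Δ : MvPolynomial σ ℂ) (N : ℕ) (c : J → MvPolynomial σ ℂ)
    (s : J → ι → ℂ) (n : J → ℕ) (F : MvPolynomial τ (MvPolynomial σ ℂ)),
    DHyp D β P Δ N c s n F →
    ∀ i, ∃ G, ∑ j, C (c j) * wL D (∑ a, s j a • P a) (n j) i = C (Δ ^ N) * G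

end Div

/-! ## 4. The enveloping algebra -/

section Env

/-- The lift with coefficients on the left. -/
noncomputable def li {σ τ U : Type} [Fintype τ] [Ring U] [Algebra ℂ U] (O : Ore σ τ U)
    (P : Lm σ τ) : U := O.e P.1 + ∑ i, O.e (P.2 i) * O.x i

/-- The words with given content. -/
noncomputable def wds {τ : Type} [Fintype τ] (α : τ →₀ ℕ) : Finset (Fin α.degree → τ) := by
  classical exact Finset.univ.filter fun b => ∑ r, Finsupp.single (b r) 1 = α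

/-- The symmetrised monomial. -/
noncomputable def sym {τ U : Type} [Fintype τ] [Ring U] [Algebra ℂ U] (x : τ → U) (α : τ →₀ ℕ) :
    U := ((wds α).card : ℂ)⁻¹ • ∑ b ∈ wds α, (List.ofFn fun r => x (b r)).prod

/-- Symmetrisation in the complement, coefficients on the left. -/
noncomputable def Ns {σ τ U : Type} [Fintype τ] [Ring U] [Algebra ℂ U] (O : Ore σ τ U)
    (W : MvPolynomial τ (MvPolynomial σ ℂ)) : U :=
  ∑ α ∈ W.support, O.e (coeff α W) * sym O.x α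

/-- UPW: the powers of the lift. -/
def UPWStmt : Prop :=
  ∀ (σ τ U : Type) [Fintype τ] [Ring U] [Algebra ℂ U] (O : Ore σ τ U) (P : Lm σ τ),
    (∀ i, dvG O.D P (P.2 i) = 0) → ∀ n M, n ≤ M →
    li O P ^ n = Ns O (∑ i ∈ Finset.range (M + 1), wL O.D P n i)

/-- DVU: divisibility in the enveloping algebra. -/
def DVUStmt : Prop :=
  ∀ (σ τ ι J U : Type) [Fintype σ] [Fintype τ] [Fintype ι] [Fintype J] [Ring U] [Algebra ℂ U]
    (O : Ore σ τ U) (P : ι → Lm σ τ) (Δ : MvPolynomial σ ℂ) (N : ℕ) (c : J → MvPolynomial σ ℂ)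
    (s : J → ι → ℂ) (n : J → ℕ) (F : MvPolynomial τ (MvPolynomial σ ℂ)),
    DHyp O.D O.β P Δ N c s n F →
    ∃ u : U, ∑ j, O.e (c j) * (∑ a, s j a • li O (P a)) ^ n j = O.e (Δ ^ N) * u

/-- CE2: evaluation of polynomials over a commutative ring at commuting elements. -/
def CE2Stmt : Prop :=
  ∀ (R U ι : Type) [CommRing R] [Algebra ℂ R] [Ring U] [Algebra ℂ U] (e : R →ₐ[ℂ] U)
    (t : ι → U), (∀ a b, t a * t b = t b * t a) → (∀ a c, t a * e c = e c * t a) →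
    ∃ ev : MvPolynomial ι R →ₐ[ℂ] U, (∀ c, ev (C c) = e c) ∧ (∀ a, ev (X a) = t a) ∧
      ∀ p q, ev p * ev q = ev q * ev p

/-- POW: polynomials are combinations of powers of linear forms. -/
def POWStmt : Prop :=
  ∀ (R ι : Type) [CommRing R] [Algebra ℂ R] [Fintype ι] (Q : MvPolynomial ι R),
    ∃ (m : ℕ) (c : Fin m → R) (s : Fin m → ι → ℂ) (n : Fin m → ℕ),
      Q = ∑ j, C (c j) * (∑ a, s j a • X a) ^ n j

/-- POL: the polynomial Poincare lemma. -/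
def POLStmt : Prop :=
  ∀ (R ι : Type) [CommRing R] [Algebra ℂ R] [Fintype ι] (q : ι → MvPolynomial ι R),
    (∀ i j, pderiv i (q j) = pderiv j (q i)) → ∃ Q, ∀ i, pderiv i Q = q i

end Env

/-! ## 5. The algebra `F_a` -/

section Alg

/-- `S(V)` in the polynomial ring. -/
noncomputable def iB (σ τ : Type) : MvPolynomial σ ℂ →ₐ[ℂ] MvPolynomial (σ ⊕ τ) ℂ :=
  rename Sum.inl

/-- `S(V) + S(V)·h` in the polynomial ring. -/
noncomputable def iL {σ τ : Type} [Fintype τ] (P : Lm σ τ) : MvPolynomial (σ ⊕ τ) ℂ :=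
  iB σ τ P.1 + ∑ i, iB σ τ (P.2 i) * X (Sum.inr i)

/-- The polynomial ring over `S(V)`. -/
noncomputable def Psi (σ τ : Type) :
    MvPolynomial (σ ⊕ τ) ℂ →ₐ[ℂ] MvPolynomial τ (MvPolynomial σ ℂ) :=
  aeval (Sum.elim (fun l => C (X l)) X)

/-- A graded subalgebra stable under the derivatives in the directions of `τ`. -/
structure GSt {σ τ : Type} (A : Subalgebra ℂ (MvPolynomial (σ ⊕ τ) ℂ)) : Prop where
  graded : ∀ F ∈ A, ∀ n, homogeneousComponent n F ∈ A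
  stable : ∀ F ∈ A, ∀ i : τ, pderiv (Sum.inr i) F ∈ A

/-- The normal form of a maximal family of elements of `S(V) + S(V)·h` in `A`. -/
structure NF {σ τ : Type} [Fintype τ] (A : Subalgebra ℂ (MvPolynomial (σ ⊕ τ) ℂ))
    (J : Finset τ) (D : ℕ) (Δ : MvPolynomial σ ℂ) (P : J → Lm σ τ) : Prop where
  pos : 1 ≤ D
  ne : Δ ≠ 0
  homΔ : Δ.IsHomogeneous (D - 1)
  memΔ : iB σ τ Δ ∈ A
  mem : ∀ a, iL (P a) ∈ A
  hom : ∀ a, HomL D (P a)
  diag : ∀ a, (P a).2 a = Δ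
  off : ∀ a b : J, a ≠ b → (P a).2 b = 0
  max : ∀ F ∈ A, (∀ j : J, pderiv (Sum.inr (j : τ)) F = 0) → ∃ c, F = iB σ τ c

/-- NFJ: the normal form exists. -/
def NFJStmt : Prop :=
  ∀ (σ τ : Type) [Fintype σ] [Fintype τ] (A : Subalgebra ℂ (MvPolynomial (σ ⊕ τ) ℂ)), GSt A →
    ∃ (J : Finset τ) (D : ℕ) (Δ : MvPolynomial σ ℂ) (P : J → Lm σ τ), NF A J D Δ P

/-- SPN: `A` is contained in the algebra generated by the family, after inverting `Δ`. -/
def SPNStmt : Prop :=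
  ∀ (σ τ : Type) [Fintype σ] [Fintype τ] (A : Subalgebra ℂ (MvPolynomial (σ ⊕ τ) ℂ)), GSt A →
    ∀ (J : Finset τ) (D : ℕ) (Δ : MvPolynomial σ ℂ) (P : J → Lm σ τ), NF A J D Δ P →
    ∀ (k : ℕ) (F : MvPolynomial (σ ⊕ τ) ℂ), F ∈ A → F.IsHomogeneous k →
    ∃ (N : ℕ) (Q : MvPolynomial J (MvPolynomial σ ℂ)),
      iB σ τ Δ ^ N * F = eval₂ (iB σ τ).toRingHom (fun a => iL (P a)) Q ∧
      ∀ α, coeff α Q ≠ 0 → iB σ τ (coeff α Q) ∈ A ∧
        ∃ m, m + α.degree * D = k + N * (D - 1) ∧ (coeff α Q).IsHomogeneous m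

variable {𝔤 : Type} [LieRing 𝔤] [LieAlgebra ℂ 𝔤]

/-- The polynomial functions on the dual space. -/
noncomputable def evP {κ : Type} (b : Basis κ ℂ 𝔤) :
    MvPolynomial κ ℂ →ₐ[ℂ] (Dual ℂ 𝔤 → ℂ) :=
  aeval (fun i ξ => ξ (b i))

/-- SYE: principal symbols exist. -/
def SYEStmt : Prop :=
  ∀ (𝔤 : Type) [LieRing 𝔤] [LieAlgebra ℂ 𝔤] [FiniteDimensional ℂ 𝔤] (κ : Type) [Fintype κ]
    (b : Basis κ ℂ 𝔤) (u : UniversalEnvelopingAlgebra ℂ 𝔤), u ≠ 0 →
    ∃ (k : ℕ) (p : MvPolynomial κ ℂ), p ≠ 0 ∧ p.IsHomogeneous k ∧ HasSym k u (evP b p)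

/-- SYQ: the symbol of a polynomial in the lifts. -/
def SYQStmt : Prop :=
  ∀ (𝔤 : Type) [LieRing 𝔤] [LieAlgebra ℂ 𝔤] [FiniteDimensional ℂ 𝔤] (V : LieIdeal ℂ 𝔤)
    (σ τ ι : Type) [Fintype σ] [Fintype τ] (b : Basis (σ ⊕ τ) ℂ 𝔤)
    (O : Ore σ τ (UniversalEnvelopingAlgebra ℂ 𝔤)) (R : Subalgebra ℂ (MvPolynomial σ ℂ))
    (P : ι → Lm σ τ) (ev : MvPolynomial ι R →ₐ[ℂ] UniversalEnvelopingAlgebra ℂ 𝔤)
    (D K : ℕ) (Q : MvPolynomial ι R),
    IsAb V → Adp V b →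
    (∀ l, O.e (X l) = UniversalEnvelopingAlgebra.ι ℂ (b (Sum.inl l))) →
    (∀ i, O.x i = UniversalEnvelopingAlgebra.ι ℂ (b (Sum.inr i))) →
    1 ≤ D → (∀ a, HomL D (P a)) → (∀ c, ev (C c) = O.e c) → (∀ a, ev (X a) = li O (P a)) →
    (∀ α, coeff α Q ≠ 0 → ∃ m, m + α.degree * D = K ∧
      ((coeff α Q : R) : MvPolynomial σ ℂ).IsHomogeneous m) →
    HasSym K (ev Q) (evP b (eval₂ ((iB σ τ).comp R.val).toRingHom (fun a => iL (P a)) Q))

/-- QTH: quantisation of graded Poisson commutative subalgebras stable under the derivatives in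
the directions outside of `V`, where `V` contains the derived algebra. -/
def QTHStmt : Prop :=
  ∀ (𝔤 : Type) [LieRing 𝔤] [LieAlgebra ℂ 𝔤] [FiniteDimensional ℂ 𝔤] (V : LieIdeal ℂ 𝔤)
    (σ τ : Type) [Fintype σ] [Fintype τ] (b : Basis (σ ⊕ τ) ℂ 𝔤)
    (A : Subalgebra ℂ (MvPolynomial (σ ⊕ τ) ℂ)),
    IsAb V → Adp V b → (∀ x y : 𝔤, ⁅x, y⁆ ∈ V) → GSt A →
    (∀ P Q : Lm σ τ, iL P ∈ A → iL Q ∈ A → brG (DD b) (cc b) (bb b) P Q = 0) →
    ∃ Â : Subalgebra ℂ (UniversalEnvelopingAlgebra ℂ 𝔤),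
      (∀ u ∈ Â, ∀ v ∈ Â, u * v = v * u) ∧
      (∀ u ∈ Â, u ≠ 0 → ∃ (k : ℕ) (G : MvPolynomial (σ ⊕ τ) ℂ), G ∈ A ∧ G ≠ 0 ∧
        G.IsHomogeneous k ∧ HasSym k u (evP b G)) ∧
      ∀ (k : ℕ) (G : MvPolynomial (σ ⊕ τ) ℂ), G ∈ A → G.IsHomogeneous k →
        ∃ u ∈ Â, HasSym k u (evP b G)

end Alg

/-! ## 6. Analysis -/

section Ana

/-- The homogeneous polynomials given by the Taylor coefficients of local invariants. -/
def TPs {κ : Type} [Fintype κ] (A : κ → ((κ → ℂ) →L[ℂ] (κ → ℂ))) (a : κ → ℂ) :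
    Set (MvPolynomial κ ℂ) :=
  {p | ∃ (f : (κ → ℂ) → ℂ) (k : ℕ), InvAt A a f ∧ 1 ≤ k ∧ p.IsHomogeneous k ∧
    ∀ t, tayE a f k t = eval t p}

/-- MFP: the Mishchenko-Fomenko algebra as an algebra of polynomials. -/
def MFPStmt : Prop :=
  ∀ (𝔤 : Type) [LieRing 𝔤] [LieAlgebra ℂ 𝔤] (κ : Type) [Fintype κ] (b : Basis κ ℂ 𝔤)
    (a : Dual ℂ 𝔤),
    MF a = (Algebra.adjoin ℂ (TPs (opA b) ((dualC b).symm a))).map (evP b)

/-- DSI: derivatives of local invariants in the directions annihilating `[𝔤, 𝔤]`. -/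
def DSIStmt : Prop :=
  ∀ (E κ : Type) [NormedAddCommGroup E] [NormedSpace ℂ E] [FiniteDimensional ℂ E]
    (A : κ → (E →L[ℂ] E)) (a η : E) (f : E → ℂ), (∀ i, A i η = 0) → InvAt A a f →
    InvAt A a (fun x => fderiv ℂ f x η) ∧
    ∀ (k : ℕ) (t : E), fderiv ℂ (tayE a f (k + 1)) t η = tayE a (fun x => fderiv ℂ f x η) k t

/-- GRS: the algebra of polynomials is graded and stable under the derivatives. -/
def GRSStmt : Prop :=
  ∀ (σ τ : Type) [Fintype σ] [Fintype τ]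
    (A : (σ ⊕ τ) → ((σ ⊕ τ → ℂ) →L[ℂ] (σ ⊕ τ → ℂ))) (a : σ ⊕ τ → ℂ),
    (∀ i, ∀ t ∈ TT σ τ, A i t = 0) → GSt (Algebra.adjoin ℂ (TPs A a))

/-- PCM: the algebra of polynomials is Poisson commutative. -/
def PCMStmt : Prop :=
  ∀ (𝔤 : Type) [LieRing 𝔤] [LieAlgebra ℂ 𝔤] (κ : Type) [Fintype κ] [DecidableEq κ]
    (b : Basis κ ℂ 𝔤) (a : κ → ℂ) (p q : MvPolynomial κ ℂ),
    p ∈ Algebra.adjoin ℂ (TPs (opA b) a) → q ∈ Algebra.adjoin ℂ (TPs (opA b) a) →
    ∀ t, pbE b (fun t => eval t p) (fun t => eval t q) t = 0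

/-- The final statement. -/
def MetaStmt : Prop :=
  ∀ (𝔤 : Type) [LieRing 𝔤] [LieAlgebra ℂ 𝔤] [FiniteDimensional ℂ 𝔤],
    (∀ x y z w : 𝔤, ⁅⁅x, y⁆, ⁅z, w⁆⁆ = 0) → ∀ a : Dual ℂ 𝔤,
    ∃ A : Subalgebra ℂ (UniversalEnvelopingAlgebra ℂ 𝔤), IsQuant a A

end Ana

end Pool.MFM
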