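import Pool.Agent.H51.MFM.QTH

/-!
# Board mfm: TPM (the final statement)
-/

set_option autoImplicit false

open Module MvPolynomial

namespace Pool.MFM

open Pool.MFQ Pool.MFM.QT

lemma tpm_evT {σ τ : Type} [Fintype τ] (P : Lm σ τ) (t : σ ⊕ τ → ℂ) :
    evT P t = eval t (iL P) := by
  have h : ∀ p : MvPolynomial σ ℂ, eval t (iB σ τ p) = eval (fun l => t (Sum.inl l)) p := by
    intro p
    unfold iB
    rw [MvPolynomial.eval_rename]
    rfl
  unfold evT iL
  rw [map_add, map_sum, h]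
  congr 1
  refine Finset.sum_congr rfl fun i _ => ?_
  rw [map_mul, h, eval_X]

theorem t_tpm (hBAS : BASStmt) (hQTH : QTHStmt) (hMFP : MFPStmt) (hGRS : GRSStmt)
    (hPCM : PCMStmt) (hPOI : POIStmt) (hUNQ : UNQStmt) (hSYA : SYAStmt) : MetaStmt := by
  classical
  intro 𝔤 _ _ _ hm a
  obtain ⟨V, hV⟩ : ∃ V : LieIdeal ℂ 𝔤, V = ⁅(⊤ : LieIdeal ℂ 𝔤), (⊤ : LieIdeal ℂ 𝔤)⁆ := ⟨_, rfl⟩
  have hmem : ∀ x y : 𝔤, ⁅x, y⁆ ∈ V := fun x y => by
    rw [hV]
    exact LieSubmodule.lie_mem_lie (LieSubmodule.mem_top x) (LieSubmodule.mem_top y)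
  have hspan : V.toSubmodule = Submodule.span ℂ {m | ∃ x y : 𝔤, ⁅x, y⁆ = m} := by
    rw [hV, LieSubmodule.lieIdeal_oper_eq_linear_span']
    simp
  have hone : ∀ p q : 𝔤, ∀ y ∈ V, ⁅⁅p, q⁆, y⁆ = 0 := by
    intro p q y hy
    have hy' : y ∈ V.toSubmodule := hy
    rw [hspan] at hy'
    induction hy' using Submodule.span_induction with
    | mem y hy0 =>
      obtain ⟨r, s, rfl⟩ := hy0
      exact hm p q r s
    | zero => exact lie_zero _
    | add y z hy1 hz1 h5 h6 =>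
      rw [← hspan] at hy1 hz1
      rw [lie_add, h5 hy1, h6 hz1, add_zero]
    | smul c y hy1 h5 =>
      rw [← hspan] at hy1
      rw [lie_smul, h5 hy1, smul_zero]
  have hab : IsAb V := by
    intro x hx y hy
    have hx' : x ∈ V.toSubmodule := hx
    rw [hspan] at hx'
    induction hx' using Submodule.span_induction with
    | mem x hx0 =>
      obtain ⟨p, q, rfl⟩ := hx0
      exact hone p q y hy
    | zero => exact zero_lie _
    | add x z hx1 hz1 h5 h6 =>
      rw [← hspan] at hx1 hz1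
      rw [add_lie, h5 hx1, h6 hz1, add_zero]
    | smul c x hx1 h5 =>
      rw [← hspan] at hx1
      rw [smul_lie, h5 hx1, smul_zero]
  obtain ⟨p, q, b, hb⟩ := hBAS 𝔤 V
  obtain ⟨A, hA⟩ : ∃ A : Subalgebra ℂ (MvPolynomial (Fin p ⊕ Fin q) ℂ),
    A = Algebra.adjoin ℂ (TPs (opA b) ((dualC b).symm a)) := ⟨_, rfl⟩
  have hMF : MF a = A.map (evP b) := by rw [hA]; exact hMFP 𝔤 (Fin p ⊕ Fin q) b a
  have hGSt : GSt A := by
    rw [hA]
    apply hGRS (Fin p) (Fin q) (opA b) _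
    intro i t ht
    ext j
    have h1 : opA b i t j = ∑ k, (b.repr ⁅b i, b j⁆ k) • t k := by
      simp [opA]
    rw [h1, Pi.zero_apply]
    refine Finset.sum_eq_zero fun k _ => ?_
    rcases k with k | k
    · rw [ht k, smul_zero]
    · rw [hb.2 _ (hmem _ _) k, zero_smul]
  obtain ⟨B, hB1, hB2, hB3⟩ := hQTH 𝔤 V (Fin p) (Fin q) b A hab hb hmem hGSt (by
    intro P Q hP hQ
    apply hPOI 𝔤 V (Fin p) (Fin q) b P Q hab hb
    intro t
    rw [hA] at hP hQ
    have h := hPCM 𝔤 (Fin p ⊕ Fin q) b ((dualC b).symm a) (iL P) (iL Q) hP hQ t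
    have e1 : evT P = fun t => eval t (iL P) := funext fun t => tpm_evT P t
    have e2 : evT Q = fun t => eval t (iL Q) := funext fun t => tpm_evT Q t
    rw [e1, e2]
    exact h)
  have hmemMF : ∀ G ∈ A, evP b G ∈ MF a := by
    intro G hG
    rw [hMF]
    exact ⟨G, hG, rfl⟩
  have hne : ∀ G : MvPolynomial (Fin p ⊕ Fin q) ℂ, G ≠ 0 → evP b G ≠ 0 := by
    intro G hG h
    exact hG (evP_inj b (by rw [h, map_zero]))
  refine ⟨B, hB1, ?_, ?_⟩
  · intro u hu hu0
    obtain ⟨k, G, hG, hG0, _, hs⟩ := hB2 u hu hu0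
    exact ⟨k, evP b G, hne G hG0, hmemMF G hG, hs⟩
  · apply le_antisymm
    · rw [hMF]
      rintro _ ⟨F, hF, rfl⟩
      have hF' : F ∈ A := hF
      have h1 : ∀ n, evP b (homogeneousComponent n F) ∈
          Algebra.adjoin ℂ {P | P ≠ 0 ∧ ∃ u ∈ B, ∃ k : ℕ, HasSym k u P} := by
        intro n
        by_cases h0 : homogeneousComponent n F = 0
        · rw [h0, map_zero]
          exact Subalgebra.zero_mem _
        · obtain ⟨u, hu, hs⟩ := hB3 n (homogeneousComponent n F) (hGSt.graded F hF' n)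
            (homogeneousComponent_isHomogeneous n F)
          exact Algebra.subset_adjoin ⟨hne _ h0, u, hu, n, hs⟩
      have h2 : F = ∑ i ∈ Finset.range (F.totalDegree + 1), homogeneousComponent i F :=
        (sum_homogeneousComponent F).symm
      change evP b F ∈ _
      rw [h2, map_sum]
      exact Subalgebra.sum_mem _ fun n _ => h1 n
    · apply Algebra.adjoin_le
      rintro P ⟨hP0, u, hu, k, hs⟩
      by_cases hu0 : u = 0
      · exact absurd (hUNQ 𝔤 k u P hs (by rw [hu0]; exact Submodule.zero_mem _)) hP0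
      · obtain ⟨k', G, hG, hG0, _, hs'⟩ := hB2 u hu hu0
        rw [(sym_uniq hUNQ hSYA hs hs' hP0 (hne G hG0)).2]
        exact hmemMF G hG

end Pool.MFM
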