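import Pool.Agent.H51.MFQ.All
import Pool.Agent.H2.MFM.NFJ
import Pool.Agent.H2.MFM.SPN
import Pool.Agent.H43.MFM.ILA
import Pool.Agent.H43.MFM.LCZ
import Pool.Agent.H43.MFM.ONE
import Pool.Agent.H43.MFM.POL
import Pool.Agent.H50.MFM.DEX
import Pool.Agent.H50.MFM.DIV
import Pool.Agent.H50.MFM.KLS
import Pool.Agent.H50.MFM.LDG
import Pool.Agent.H50.MFM.LMA
import Pool.Agent.H50.MFM.SMI
import Pool.Agent.H50.MFM.SUB
import Pool.Agent.H50.MFM.TEN
import Pool.Agent.H51.MFM.SYQ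
import Pool.Agent.H51.MFM.TPM
import Pool.Agent.H6.MFM.GRS
import Pool.Agent.H6.MFM.PCM
import Pool.Agent.H6.MFM.SYE
import Pool.Agent.H6.MFM.UPW
import Pool.Agent.H61.MFM.CE2
import Pool.Agent.H61.MFM.DSI
import Pool.Agent.H61.MFM.DVU
import Pool.Agent.H61.MFM.ILB
import Pool.Agent.H61.MFM.MFP
import Pool.Agent.H61.MFM.PIV
import Pool.Agent.H61.MFM.POW
import Pool.Agent.H79.MFM.DVP

/-!
# Board mfm: assembly
-/

set_option autoImplicit false

namespace Pool.MFM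

open Pool.MFQ

theorem all_div : DIVStmt :=
  t_div (t_dvp (t_ilb (t_ila t_one) (t_lma (t_ten t_kls t_smi))) t_dex t_piv t_lcz t_ldg t_sub)

theorem all_qth : QTHStmt :=
  t_qth (t_ore t_cev) (t_tf (t_pbw t_pba)) (h_unq (t_pbw t_pba)) t_sya h_ind t_ce2 t_pow
    (t_spn h_ind t_pol) t_nfj (t_dvu t_upw all_div) t_sye t_syq

theorem all_meta : MetaStmt :=
  t_tpm t_bas all_qth (t_mfp t_tr2 t_tph) (t_grs t_dsi) (t_pcm t_com) t_poi
    (h_unq (t_pbw t_pba)) t_sya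

end Pool.MFM
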