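import Pool.Agent.H51.MFM.S
import Pool.Agent.H95.MFQ.THA

/-!
# Board mfm, row QTH
-/

set_option autoImplicit false

open Module MvPolynomial

namespace Pool.MFM.QT

open Pool.MFQ

/-! ### Abstract part -/

section Abs

variable {S U Rm : Type} [CommRing S] [Algebra ℂ S] [Ring U] [Algebra ℂ U] [CommRing Rm]
  [Algebra ℂ Rm]

/-- The relation between elements of `S` and of `U`. -/
def Rel (A : Subalgebra ℂ S) (evS : Rm →ₐ[ℂ] S) (ev : Rm →ₐ[ℂ] U) (d : Rm) (F : S) (u : U) :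
    Prop := F ∈ A ∧ ∃ (N : ℕ) (Q : Rm), evS d ^ N * F = evS Q ∧ ev d ^ N * u = ev Q

variable {A : Subalgebra ℂ S} {evS : Rm →ₐ[ℂ] S} {ev : Rm →ₐ[ℂ] U} {d : Rm}

lemma tf_pow (htf : ∀ u, ev d * u = 0 → u = 0) (N : ℕ) : ∀ u, ev d ^ N * u = 0 → u = 0 := by
  induction N with
  | zero => intro u hu; rwa [pow_zero, one_mul] at hu
  | succ N ih =>
    intro u hu
    rw [pow_succ, mul_assoc] at hu
    exact htf u (ih _ hu)

lemma rel_mul (hc : ∀ p q, ev p * ev q = ev q * ev p) {F F' : S} {u u' : U}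
    (h : Rel A evS ev d F u) (h' : Rel A evS ev d F' u') : Rel A evS ev d (F * F') (u * u') := by
  obtain ⟨hF, N, Q, h1, h2⟩ := h
  obtain ⟨hF', N', Q', h1', h2'⟩ := h'
  refine ⟨A.mul_mem hF hF', N + N', Q * Q', ?_, ?_⟩
  · rw [map_mul, ← h1, ← h1', pow_add]
    ring
  · have e1 : ev d ^ N' * ev Q = ev Q * ev d ^ N' := by
      rw [← map_pow]
      exact hc _ _
    rw [map_mul, ← h2', ← mul_assoc (ev Q), ← e1, ← h2, pow_add]
    have e2 : ev d ^ N * ev d ^ N' = ev d ^ N' * ev d ^ N := by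
      rw [← pow_add, ← pow_add, add_comm]
    rw [e2]
    noncomm_ring

lemma rel_add {F F' : S} {u u' : U} (h : Rel A evS ev d F u) (h' : Rel A evS ev d F' u') :
    Rel A evS ev d (F + F') (u + u') := by
  obtain ⟨hF, N, Q, h1, h2⟩ := h
  obtain ⟨hF', N', Q', h1', h2'⟩ := h'
  refine ⟨A.add_mem hF hF', N + N', d ^ N' * Q + d ^ N * Q', ?_, ?_⟩
  · rw [map_add, map_mul, map_mul, map_pow, map_pow, ← h1, ← h1', pow_add]
    ring
  · rw [map_add, map_mul, map_mul, map_pow, map_pow, ← h2, ← h2', mul_add, ← mul_assoc,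
      ← mul_assoc, ← pow_add, ← pow_add, add_comm N' N]

lemma rel_alg (c : ℂ) : Rel A evS ev d (algebraMap ℂ S c) (algebraMap ℂ U c) :=
  ⟨A.algebraMap_mem c, 0, algebraMap ℂ Rm c, by simp, by simp⟩

lemma rel_zero : Rel A evS ev d 0 0 := ⟨A.zero_mem, 0, 0, by simp, by simp⟩

lemma rel_uniq (hinj : Function.Injective evS) (htf : ∀ u, ev d * u = 0 → u = 0) {F : S}
    {u u' : U} (h : Rel A evS ev d F u) (h' : Rel A evS ev d F u') : u = u' := by
  obtain ⟨hF, N, Q, h1, h2⟩ := h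
  obtain ⟨hF', N', Q', h1', h2'⟩ := h'
  have e1 : d ^ N' * Q = d ^ N * Q' := by
    apply hinj
    rw [map_mul, map_mul, map_pow, map_pow, ← h1, ← h1']
    ring
  have e2 := congrArg ev e1
  rw [map_mul, map_mul, map_pow, map_pow, ← h2, ← h2', ← mul_assoc, ← mul_assoc, ← pow_add,
    ← pow_add, add_comm N' N, ← sub_eq_zero, ← mul_sub] at e2
  exact sub_eq_zero.mp (tf_pow htf _ _ e2)

lemma rel_comm (hc : ∀ p q, ev p * ev q = ev q * ev p) (htf : ∀ u, ev d * u = 0 → u = 0)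
    {F F' : S} {u u' : U} (h : Rel A evS ev d F u) (h' : Rel A evS ev d F' u') :
    u * u' = u' * u := by
  obtain ⟨hF, N, Q, h1, h2⟩ := h
  obtain ⟨hF', N', Q', h1', h2'⟩ := h'
  have key : ∀ (N N' : ℕ) (Q Q' : Rm) (u u' : U), ev d ^ N * u = ev Q → ev d ^ N' * u' = ev Q' →
      ev d ^ (N + N') * (u * u') = ev Q * ev Q' := by
    intro N N' Q Q' u u' h2 h2'
    have e1 : ev d ^ N' * ev Q = ev Q * ev d ^ N' := by
      rw [← map_pow]
      exact hc _ _
    rw [← h2', ← mul_assoc (ev Q), ← e1, ← h2, add_comm N N', pow_add]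
    noncomm_ring
  have e1 := key N N' Q Q' u u' h2 h2'
  have e2 := key N' N Q' Q u' u h2' h2
  rw [add_comm N' N] at e2
  have e3 : ev d ^ (N + N') * (u * u' - u' * u) = 0 := by
    rw [mul_sub, e1, e2, hc Q Q', sub_self]
  exact sub_eq_zero.mp (tf_pow htf _ _ e3)

/-- The subalgebra. -/
def AA (A : Subalgebra ℂ S) (evS : Rm →ₐ[ℂ] S) (ev : Rm →ₐ[ℂ] U) (d : Rm)
    (hc : ∀ p q, ev p * ev q = ev q * ev p) : Subalgebra ℂ U where
  carrier := {u | ∃ F, Rel A evS ev d F u}
  mul_mem' := by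
    rintro u v ⟨F, h⟩ ⟨G, h'⟩
    exact ⟨F * G, rel_mul hc h h'⟩
  add_mem' := by
    rintro u v ⟨F, h⟩ ⟨G, h'⟩
    exact ⟨F + G, rel_add h h'⟩
  algebraMap_mem' := fun c => ⟨_, rel_alg c⟩

lemma rel_sum {ι : Type} (s : Finset ι) (F : ι → S) (u : ι → U)
    (h : ∀ i ∈ s, Rel A evS ev d (F i) (u i)) :
    Rel A evS ev d (∑ i ∈ s, F i) (∑ i ∈ s, u i) := by
  classical
  induction s using Finset.induction_on with
  | empty =>
    rw [Finset.sum_empty, Finset.sum_empty]
    exact rel_zero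
  | insert a s ha ih =>
    rw [Finset.sum_insert ha, Finset.sum_insert ha]
    exact rel_add (h a (Finset.mem_insert_self a s)) (ih fun i hi => h i (Finset.mem_insert_of_mem hi))

end Abs

/-! ### Ore structures -/

section OreS

variable {σ τ U : Type} [Fintype τ] [Ring U] [Algebra ℂ U] (O : Ore σ τ U)

lemma x_mul (i : τ) (φ : MvPolynomial σ ℂ) : O.x i * O.e φ = O.e φ * O.x i + O.e (O.D i φ) := by
  rw [← O.hx i φ]
  abel

lemma e_comm (φ ψ : MvPolynomial σ ℂ) : O.e φ * O.e ψ = O.e ψ * O.e φ := by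
  rw [← map_mul, ← map_mul, mul_comm]

lemma li_e (P : Lm σ τ) (c : MvPolynomial σ ℂ) (h : dvG O.D P c = 0) :
    li O P * O.e c = O.e c * li O P := by
  unfold li
  rw [add_mul, mul_add, e_comm, Finset.sum_mul, Finset.mul_sum]
  congr 1
  have h1 : ∑ i, O.e (P.2 i) * O.x i * O.e c =
      ∑ i, O.e c * (O.e (P.2 i) * O.x i) + O.e (dvG O.D P c) := by
    unfold dvG
    rw [map_sum, ← Finset.sum_add_distrib]
    refine Finset.sum_congr rfl fun i _ => ?_
    rw [mul_assoc, x_mul, mul_add, ← mul_assoc, ← mul_assoc, e_comm O (P.2 i) c, map_mul]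
  rw [h1, h, map_zero, add_zero]

lemma li_mul (P Q : Lm σ τ) (h : ∀ i, dvG O.D P (Q.2 i) = 0) :
    li O P * li O Q = O.e (P.1 * Q.1 + dvG O.D P Q.1) +
      ∑ i, O.e (P.1 * Q.2 i + Q.1 * P.2 i) * O.x i +
      ∑ i, ∑ j, O.e (P.2 i * Q.2 j) * (O.x i * O.x j) := by
  unfold li
  have h1 : ∑ i, O.e (P.2 i) * O.x i * O.e Q.1 =
      ∑ i, O.e (Q.1 * P.2 i) * O.x i + O.e (dvG O.D P Q.1) := by
    unfold dvG
    rw [map_sum, ← Finset.sum_add_distrib]
    refine Finset.sum_congr rfl fun i _ => ?_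
    rw [mul_assoc, x_mul, mul_add, ← mul_assoc, ← map_mul, ← map_mul, mul_comm (P.2 i) Q.1]
  have h2 : ∀ j, ∑ i, O.e (P.2 i) * O.x i * (O.e (Q.2 j) * O.x j) =
      ∑ i, O.e (P.2 i * Q.2 j) * (O.x i * O.x j) := by
    intro j
    have e1 : ∑ i, O.e (P.2 i) * O.x i * (O.e (Q.2 j) * O.x j) =
        ∑ i, O.e (P.2 i * Q.2 j) * (O.x i * O.x j) + O.e (dvG O.D P (Q.2 j)) * O.x j := by
      unfold dvG
      rw [map_sum, Finset.sum_mul, ← Finset.sum_add_distrib]
      refine Finset.sum_congr rfl fun i _ => ?_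
      rw [← mul_assoc (O.e (P.2 i) * O.x i), mul_assoc (O.e (P.2 i)) (O.x i), x_mul]
      simp only [map_mul]
      noncomm_ring
    rw [e1, h j, map_zero, zero_mul, add_zero]
  rw [add_mul, mul_add, mul_add, Finset.sum_mul, h1, Finset.mul_sum]
  have h3 : (∑ i, O.e (P.2 i) * O.x i) * ∑ j, O.e (Q.2 j) * O.x j =
      ∑ i, ∑ j, O.e (P.2 i * Q.2 j) * (O.x i * O.x j) := by
    rw [Finset.sum_comm, Finset.mul_sum]
    refine Finset.sum_congr rfl fun j _ => ?_
    rw [Finset.sum_mul, h2 j]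
  rw [h3]
  simp only [map_add, map_mul, add_mul, Finset.sum_add_distrib, mul_assoc]
  abel

lemma li_comm (P Q : Lm σ τ) (hc : ∀ i j k, O.c i j k = 0) (h : ∀ i, dvG O.D P (Q.2 i) = 0)
    (h' : ∀ i, dvG O.D Q (P.2 i) = 0)
    (hp : ∑ i, ∑ j, P.2 i * Q.2 j * O.β i j + dvG O.D P Q.1 - dvG O.D Q P.1 = 0) :
    li O P * li O Q = li O Q * li O P := by
  rw [li_mul O P Q h, li_mul O Q P h']
  have h1 : ∑ i, ∑ j, O.e (Q.2 i * P.2 j) * (O.x i * O.x j) =
      ∑ i, ∑ j, O.e (P.2 i * Q.2 j) * (O.x j * O.x i) := by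
    rw [Finset.sum_comm]
    refine Finset.sum_congr rfl fun i _ => Finset.sum_congr rfl fun j _ => ?_
    rw [mul_comm (Q.2 j)]
  have h2 : ∑ i, ∑ j, O.e (P.2 i * Q.2 j) * (O.x i * O.x j) =
      ∑ i, ∑ j, O.e (P.2 i * Q.2 j) * (O.x j * O.x i) +
        O.e (∑ i, ∑ j, P.2 i * Q.2 j * O.β i j) := by
    rw [map_sum, ← Finset.sum_add_distrib]
    refine Finset.sum_congr rfl fun i _ => ?_
    rw [map_sum, ← Finset.sum_add_distrib]
    refine Finset.sum_congr rfl fun j _ => ?_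
    have h3 := O.hc i j
    have h4 : ∑ k, O.c i j k • O.x k = 0 :=
      Finset.sum_eq_zero fun k _ => by rw [hc, zero_smul]
    rw [h4, zero_add, sub_eq_iff_eq_add] at h3
    rw [h3, map_mul, mul_add]
    simp only [map_mul]
    abel
  have h5 : dvG O.D Q P.1 = ∑ i, ∑ j, P.2 i * Q.2 j * O.β i j + dvG O.D P Q.1 :=
    (sub_eq_zero.mp hp).symm
  rw [h1, h2, h5]
  simp only [map_add, mul_comm Q.1 P.1]
  have h6 : ∀ i, O.e (P.1 * Q.2 i) + O.e (Q.1 * P.2 i) =
      O.e (Q.1 * P.2 i) + O.e (P.1 * Q.2 i) := fun i => add_comm _ _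
  simp only [h6]
  abel

lemma toP_sum {σ τ ι : Type} [Fintype τ] [Fintype ι] (s : ι → ℂ) (P : ι → Lm σ τ) :
    toP (∑ a, s a • P a) = ∑ a, s a • toP (P a) := by
  have hs : ∀ (c : ℂ) (x : MvPolynomial σ ℂ), (C (c • x) : MvPolynomial τ (MvPolynomial σ ℂ)) =
      c • C x := by
    intro c x
    change monomial 0 (c • x) = c • monomial 0 x
    rw [smul_monomial]
  unfold toP
  simp only [Prod.fst_sum, Prod.snd_sum, Prod.smul_fst, Prod.smul_snd, Finset.sum_apply,
    Pi.smul_apply, map_sum, smul_add, Finset.sum_add_distrib, hs]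
  congr 1
  simp only [Finset.sum_mul, Finset.smul_sum, smul_mul_assoc]
  rw [Finset.sum_comm]

end OreS

/-! ### Symbols -/

section Sym

variable {𝔤 : Type} [LieRing 𝔤] [LieAlgebra ℂ 𝔤]

lemma evP_dualC {κ : Type} (b : Basis κ ℂ 𝔤) (p : MvPolynomial κ ℂ) (t : κ → ℂ) :
    evP b p (dualC b t) = eval t p := by
  have h : ((Pi.evalAlgHom ℂ (fun _ : Dual ℂ 𝔤 => ℂ) (dualC b t)).comp (evP b)) =
      (aeval t : MvPolynomial κ ℂ →ₐ[ℂ] ℂ) := by
    apply MvPolynomial.algHom_ext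
    intro i
    simp only [evP, AlgHom.comp_apply, aeval_X, Pi.evalAlgHom_apply]
    exact b.constr_basis ℂ t i
  have h2 := DFunLike.congr_fun h p
  rw [MvPolynomial.aeval_eq_eval] at h2
  exact h2

lemma evP_inj {κ : Type} (b : Basis κ ℂ 𝔤) : Function.Injective (evP b) := by
  intro p q h
  apply MvPolynomial.funext
  intro t
  rw [← evP_dualC b p t, ← evP_dualC b q t, h]

lemma sym_uniq [FiniteDimensional ℂ 𝔤] (hU : UNQStmt) (hS : SYAStmt) {K K' : ℕ}
    {w : UniversalEnvelopingAlgebra ℂ 𝔤}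
    {X Y : Dual ℂ 𝔤 → ℂ} (h : HasSym K w X) (h' : HasSym K' w Y) (hX : X ≠ 0) (hY : Y ≠ 0) :
    K = K' ∧ X = Y := by
  obtain ⟨_, hadd, hsmul, _, _, _, hlow⟩ := hS 𝔤
  rcases lt_trichotomy K K' with h1 | h1 | h1
  · exact absurd (hU 𝔤 K' w Y h' (hlow K K' w X h h1)) hY
  · subst h1
    refine ⟨rfl, ?_⟩
    have h2 := hadd K w ((-1 : ℂ) • w) X ((-1 : ℂ) • Y) h (hsmul K (-1) w Y h')
    have h3 : w + (-1 : ℂ) • w = 0 := by rw [neg_one_smul, add_neg_cancel]
    rw [h3] at h2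
    have h4 := hU 𝔤 K 0 _ h2 (Submodule.zero_mem _)
    rw [neg_one_smul, ← sub_eq_add_neg] at h4
    exact sub_eq_zero.mp h4
  · exact absurd (hU 𝔤 K w X h (hlow K' K w Y h' h1)) hX

end Sym

end Pool.MFM.QT

namespace Pool.MFM

open Pool.MFQ Pool.MFM.QT

theorem t_qth (hORE : OREStmt) (hTF : TFStmt) (hUNQ : UNQStmt) (hSYA : SYAStmt)
    (hIND : INDStmt) (hCE2 : CE2Stmt) (hPOW : POWStmt) (hSPN : SPNStmt) (hNFJ : NFJStmt)
    (hDVU : DVUStmt) (hSYE : SYEStmt) (hSYQ : SYQStmt) : QTHStmt := by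
  classical
  intro 𝔤 _ _ _ V σ τ _ _ b A hab had hder hG hPC
  obtain ⟨O, hO1, hO2, hO3, hO4, hO5⟩ := hORE 𝔤 V σ τ b hab had
  obtain ⟨J, D, Δ, P, nf⟩ := hNFJ σ τ A hG
  -- basic facts
  have hpd : ∀ (i : τ) (c : MvPolynomial σ ℂ), pderiv (Sum.inr i) (iB σ τ c) = 0 := by
    intro i c
    apply pderiv_eq_zero_of_notMem_vars
    intro h
    have h1 := MvPolynomial.vars_rename (Sum.inl : σ → σ ⊕ τ) c h
    rw [Finset.mem_image] at h1
    obtain ⟨l, _, hl⟩ := h1
    exact absurd hl (by simp)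
  have hpL : ∀ (i : τ) (Q : Lm σ τ), pderiv (Sum.inr i) (iL Q) = iB σ τ (Q.2 i) := by
    intro i Q
    unfold iL
    rw [map_add, hpd, zero_add, map_sum]
    have h1 : ∀ j, pderiv (Sum.inr i) (iB σ τ (Q.2 j) * X (Sum.inr j)) =
        if j = i then iB σ τ (Q.2 j) else 0 := by
      intro j
      rw [pderiv_mul, hpd, zero_mul, zero_add, pderiv_X]
      by_cases h : j = i
      · subst h
        rw [Pi.single_eq_same, mul_one, if_pos rfl]
      · rw [Pi.single_eq_of_ne (by simpa using h), mul_zero, if_neg h]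
    simp only [h1]
    rw [Finset.sum_ite_eq' Finset.univ i]
    simp
  have hiL0 : ∀ c : MvPolynomial σ ℂ, iL ((c, 0) : Lm σ τ) = iB σ τ c := by
    intro c
    unfold iL
    simp
  set R : Subalgebra ℂ (MvPolynomial σ ℂ) := A.comap (iB σ τ) with hR
  have hRm : ∀ c, c ∈ R ↔ iB σ τ c ∈ A := fun c => Iff.rfl
  have F1 : ∀ Q : Lm σ τ, iL Q ∈ A → ∀ c ∈ R, dvG O.D Q c = 0 := by
    intro Q hQ c hc
    have h1 := hPC Q (c, 0) hQ (by rw [hiL0]; exact hc)
    have h2 := congrArg Prod.fst h1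
    simp only [brG, Prod.fst_zero, Pi.zero_apply, mul_zero, zero_mul, Finset.sum_const_zero,
      zero_add] at h2
    have h3 : dvG (DD b) ((c, 0) : Lm σ τ) Q.1 = 0 := by
      unfold dvG
      simp
    rw [h3, sub_zero] at h2
    rw [hO3]
    exact h2
  have F2 : ∀ (a : J) i, (P a).2 i ∈ R := by
    intro a i
    rw [hRm, ← hpL]
    exact hG.stable _ (nf.mem a) i
  have hcc : ∀ i j k, O.c i j k = 0 := by
    intro i j k
    rw [hO4]
    exact had.2 _ (hder _ _) k
  have F3 : ∀ i j x, O.D i (O.D j x) = O.D j (O.D i x) := by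
    intro i j x
    have h1 := O.hD i j x
    rw [Finset.sum_eq_zero (fun k _ => by rw [hcc, zero_smul])] at h1
    exact sub_eq_zero.mp h1
  have F4 : ∀ a b' : J, ∑ i, ∑ j, (P a).2 i * (P b').2 j * O.β i j + dvG O.D (P a) (P b').1 -
      dvG O.D (P b') (P a).1 = 0 := by
    intro a b'
    have h1 := congrArg Prod.fst (hPC (P a) (P b') (nf.mem a) (nf.mem b'))
    rw [hO3, hO5]
    exact h1
  have F5 : ∀ a b' : J, li O (P a) * li O (P b') = li O (P b') * li O (P a) := by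
    intro a b'
    exact li_comm O _ _ hcc (fun i => F1 _ (nf.mem a) _ (F2 b' i))
      (fun i => F1 _ (nf.mem b') _ (F2 a i)) (F4 a b')
  have F6 : ∀ (a : J) (c : R), li O (P a) * O.e (c : MvPolynomial σ ℂ) =
      O.e (c : MvPolynomial σ ℂ) * li O (P a) :=
    fun a c => li_e O _ _ (F1 _ (nf.mem a) _ c.2)
  obtain ⟨ev, hev1, hev2, hev3⟩ := hCE2 R _ J (O.e.comp R.val) (fun a => li O (P a)) F5 F6
  obtain ⟨evS, hevS1, hevS2, _⟩ := hCE2 R (MvPolynomial (σ ⊕ τ) ℂ) J ((iB σ τ).comp R.val)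
    (fun a => iL (P a)) (fun _ _ => mul_comm _ _) (fun _ _ => mul_comm _ _)
  have hevS : ∀ Q, evS Q = eval₂ ((iB σ τ).comp R.val).toRingHom (fun a => iL (P a)) Q := by
    intro Q
    have h : (evS : MvPolynomial J R →+* _) =
        eval₂Hom ((iB σ τ).comp R.val).toRingHom (fun a => iL (P a)) := by
      apply MvPolynomial.ringHom_ext
      · intro c
        rw [RingHom.coe_coe, hevS1]
        simp
      · intro a
        rw [RingHom.coe_coe, hevS2]
        simp
    exact DFunLike.congr_fun h Q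
  -- Psi
  have hPsiB : ∀ c, Psi σ τ (iB σ τ c) = C c := by
    intro c
    have h : (Psi σ τ).comp (iB σ τ) =
        (Algebra.ofId (MvPolynomial σ ℂ) (MvPolynomial τ (MvPolynomial σ ℂ))).restrictScalars ℂ := by
      apply MvPolynomial.algHom_ext
      intro l
      simp [Psi, iB, Algebra.ofId_apply, MvPolynomial.algebraMap_eq]
    have h2 := DFunLike.congr_fun h c
    simpa [Algebra.ofId_apply, MvPolynomial.algebraMap_eq] using h2
  have hPsiL : ∀ Q : Lm σ τ, Psi σ τ (iL Q) = toP Q := by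
    intro Q
    unfold iL toP
    rw [map_add, hPsiB, map_sum]
    congr 1
    refine Finset.sum_congr rfl fun i _ => ?_
    rw [map_mul, hPsiB]
    simp [Psi]
  have hind : LinearIndependent (MvPolynomial σ ℂ) (fun a => (P a).2) := by
    rw [Fintype.linearIndependent_iff]
    intro g hg a
    have h1 := congrFun hg (a : τ)
    rw [Finset.sum_apply, Finset.sum_eq_single a] at h1
    · rw [Pi.smul_apply, nf.diag, smul_eq_mul, Pi.zero_apply] at h1
      exact (mul_eq_zero.mp h1).resolve_right nf.ne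
    · intro b' _ hb'
      rw [Pi.smul_apply, nf.off b' a hb', smul_zero]
    · intro h
      exact absurd (Finset.mem_univ a) h
  have hinj : Function.Injective evS := by
    have hAI := hIND (MvPolynomial σ ℂ) τ J (fun a => (P a).1) (fun a => (P a).2) hind
    have h1 : ∀ Q, Psi σ τ (evS Q) = aeval (fun a => toP (P a))
        (map (R.val : R →+* MvPolynomial σ ℂ) Q) := by
      intro Q
      have h : ((Psi σ τ).comp evS : MvPolynomial J R →+* _) =
          (aeval (R := MvPolynomial σ ℂ) (fun a => toP (P a)) :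
            MvPolynomial J (MvPolynomial σ ℂ) →ₐ[_] _).toRingHom.comp
            (map (R.val : R →+* MvPolynomial σ ℂ)) := by
        apply MvPolynomial.ringHom_ext
        · intro c
          simp only [RingHom.coe_coe, AlgHom.comp_apply, hevS1, RingHom.comp_apply, map_C,
            AlgHom.toRingHom_eq_coe, hPsiB]
          simp [MvPolynomial.algebraMap_eq]
        · intro a
          simp only [RingHom.coe_coe, AlgHom.comp_apply, hevS2, RingHom.comp_apply, map_X,
            AlgHom.toRingHom_eq_coe, hPsiL, aeval_X]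
      exact DFunLike.congr_fun h Q
    intro Q Q' h
    have h2 := congrArg (Psi σ τ) h
    rw [h1, h1] at h2
    have h3 := hAI h2
    exact MvPolynomial.map_injective _ Subtype.val_injective h3
  set d : MvPolynomial J R := C ⟨Δ, nf.memΔ⟩ with hd
  have hdS : evS d = iB σ τ Δ := hevS1 _
  have hdU : ev d = O.e Δ := hev1 _
  have htf : ∀ u, ev d * u = 0 → u = 0 := by
    intro u hu
    rw [hdU] at hu
    exact hTF 𝔤 σ τ b O.e hO1 Δ nf.ne u hu
  have hiBinj : Function.Injective (iB σ τ) := rename_injective _ Sum.inl_injective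
  have exist : ∀ k F, F ∈ A → F.IsHomogeneous k →
      ∃ u, Rel A evS ev d F u ∧ HasSym k u (evP b F) := by
    intro k F hF hk
    obtain ⟨N, Q0, hQ0, hco⟩ := hSPN σ τ A hG J D Δ P nf k F hF hk
    have hcoR : ∀ α, coeff α Q0 ∈ R := by
      intro α
      by_cases h : coeff α Q0 = 0
      · rw [h]
        exact R.zero_mem
      · exact (hco α h).1
    obtain ⟨Q, hQ⟩ : ∃ Q : MvPolynomial J R, map (R.val : R →+* MvPolynomial σ ℂ) Q = Q0 := by
      refine ⟨∑ α ∈ Q0.support, monomial α ⟨coeff α Q0, hcoR α⟩, ?_⟩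
      rw [map_sum]
      simp only [map_monomial]
      exact Q0.support_sum_monomial_coeff
    have hQc : ∀ α, ((coeff α Q : R) : MvPolynomial σ ℂ) = coeff α Q0 := by
      intro α
      rw [← hQ, coeff_map]
      rfl
    have hev0 : evS Q = iB σ τ Δ ^ N * F := by
      rw [hevS, hQ0, ← hQ, eval₂_map]
      rfl
    obtain ⟨m, c, s, n, hQp⟩ := hPOW R J Q
    have hDH : DHyp O.D O.β P Δ N (fun j => (c j : MvPolynomial σ ℂ)) s n (Psi σ τ F) := by
      refine ⟨F3, fun a b' i => F1 _ (nf.mem a) _ (F2 b' i), F4, hind, nf.ne,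
        fun a => F1 _ (nf.mem a) _ nf.memΔ, fun a j => F1 _ (nf.mem a) _ (c j).2, ?_⟩
      have h1 := congrArg (Psi σ τ) hev0
      rw [map_mul, map_pow, hPsiB, ← C_pow] at h1
      rw [← h1, hQp]
      simp only [map_sum, map_mul, map_pow, map_smul, hevS1, hevS2, AlgHom.comp_apply, hPsiB,
        hPsiL, toP_sum]
      rfl
    obtain ⟨u, hu⟩ := hDVU σ τ J (Fin m) _ O P Δ N _ s n _ hDH
    have hevQ : ev d ^ N * u = ev Q := by
      rw [hdU, ← map_pow, ← hu, hQp]
      simp only [map_sum, map_mul, map_pow, map_smul, hev1, hev2, AlgHom.comp_apply]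
      rfl
    have hrel : Rel A evS ev d F u := ⟨hF, N, Q, by rw [hdS, hev0], hevQ⟩
    refine ⟨u, hrel, ?_⟩
    by_cases hF0 : F = 0
    · subst hF0
      have h1 : u = 0 := rel_uniq hinj htf hrel rel_zero
      rw [h1, map_zero]
      exact T95.hasSym_zero k
    have hsQ : HasSym (k + N * (D - 1)) (ev Q) (evP b (iB σ τ Δ ^ N * F)) := by
      have h1 := hSYQ 𝔤 V σ τ J b O R P ev D (k + N * (D - 1)) Q hab had hO1 hO2 nf.pos nf.hom
        (fun c => hev1 c) (fun a => hev2 a) ?_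
      · rwa [← hevS, hev0] at h1
      · intro α hα
        have h2 : coeff α Q0 ≠ 0 := by
          rw [← hQc]
          intro h3
          exact hα (Subtype.ext h3)
        rw [hQc]
        exact (hco α h2).2
    have hsΔ : HasSym (N * (D - 1)) (ev (d ^ N)) (evP b (iB σ τ Δ ^ N)) := by
      have h1 := hSYQ 𝔤 V σ τ J b O R P ev D (N * (D - 1)) (d ^ N) hab had hO1 hO2 nf.pos nf.hom
        (fun c => hev1 c) (fun a => hev2 a) ?_
      · rw [← hevS, map_pow evS, hdS] at h1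
        exact h1
      · intro α hα
        rw [hd, ← C_pow, coeff_C] at hα ⊢
        by_cases h2 : 0 = α
        · subst h2
          refine ⟨N * (D - 1), by simp, ?_⟩
          rw [if_pos rfl]
          have h3 := nf.homΔ.pow N
          rw [mul_comm] at h3
          exact h3
        · rw [if_neg h2] at hα
          exact absurd rfl hα
    have hne : iB σ τ Δ ^ N * F ≠ 0 := by
      apply mul_ne_zero (pow_ne_zero _ _) hF0
      intro h
      exact nf.ne (hiBinj (by rw [h, map_zero]))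
    have hne' : evP b (iB σ τ Δ ^ N * F) ≠ 0 := by
      intro h
      exact hne (evP_inj b (by rw [h, map_zero]))
    have hu0 : u ≠ 0 := by
      intro h
      rw [← hevQ, h, mul_zero] at hsQ
      exact hne' (hUNQ 𝔤 _ 0 _ hsQ (Submodule.zero_mem _))
    obtain ⟨k', p, hp0, hph, hps⟩ := hSYE 𝔤 (σ ⊕ τ) b u hu0
    have hmul := (hSYA 𝔤).1 _ _ _ _ _ _ hsΔ hps
    rw [map_pow, hevQ, ← map_mul] at hmul
    have hne2 : evP b (iB σ τ Δ ^ N * p) ≠ 0 := by
      intro h
      have h1 := evP_inj b (a₂ := 0) (by rw [h, map_zero])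
      rcases mul_eq_zero.mp h1 with h2 | h2
      · exact hne (by rw [h2, zero_mul])
      · exact hp0 h2
    obtain ⟨h1, h2⟩ := sym_uniq hUNQ hSYA hsQ hmul hne' hne2
    have h3 : iB σ τ Δ ^ N * F = iB σ τ Δ ^ N * p := evP_inj b h2
    have h4 : F = p := by
      refine mul_left_cancel₀ ?_ h3
      intro h
      exact hne (by rw [h, zero_mul])
    have h5 : k' = k := by omega
    rw [h4, ← h5]
    exact hps
  refine ⟨AA A evS ev d hev3, ?_, ?_, ?_⟩
  · rintro u ⟨F, h⟩ v ⟨G, h'⟩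
    exact rel_comm hev3 htf h h'
  · rintro u ⟨F, h⟩ hu
    have hFA : F ∈ A := h.1
    have hF0 : F ≠ 0 := by
      intro h0
      subst h0
      exact hu (rel_uniq hinj htf h rel_zero)
    choose uu hrel hsym using fun n => exist n (homogeneousComponent n F)
      (hG.graded F hFA n) (homogeneousComponent_isHomogeneous n F)
    have h1 : u = ∑ n ∈ Finset.range (F.totalDegree + 1), uu n := by
      refine rel_uniq hinj htf h ?_
      have h2 := rel_sum (Finset.range (F.totalDegree + 1)) (fun n => homogeneousComponent n F) uu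
        (fun n _ => hrel n)
      rwa [sum_homogeneousComponent] at h2
    refine ⟨F.totalDegree, homogeneousComponent F.totalDegree F, hG.graded F hFA _, ?_,
      homogeneousComponent_isHomogeneous _ F, ?_⟩
    · intro h0
      obtain ⟨s, hs, hs2⟩ : ∃ s ∈ F.support, F.totalDegree = s.degree := by
        have hne : F.support.Nonempty := by
          rw [Finset.nonempty_iff_ne_empty]
          intro h3
          exact hF0 (support_eq_empty.mp h3)
        obtain ⟨s, hs, hs2⟩ := Finset.exists_mem_eq_sup F.support hne (fun s => s.degree)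
        refine ⟨s, hs, ?_⟩
        rw [← hs2, MvPolynomial.totalDegree_eq F]
        refine Finset.sup_congr rfl fun x _ => ?_
        rw [Finsupp.card_toMultiset]
        rfl
      have h3 := congrArg (coeff s) h0
      rw [coeff_homogeneousComponent, if_pos hs2.symm, coeff_zero] at h3
      exact (mem_support_iff.mp hs) h3
    · rw [h1, Finset.sum_range_succ, add_comm]
      refine (hSYA 𝔤).2.2.2.2.2.1 _ _ _ _ _ (hsym _) ?_ le_rfl
      refine Submodule.sum_mem _ fun n hn => ?_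
      exact (hSYA 𝔤).2.2.2.2.2.2 _ _ _ _ (hsym n) (Finset.mem_range.mp hn)
  · intro k G hG1 hG2
    obtain ⟨u, h1, h2⟩ := exist k G hG1 hG2
    exact ⟨u, ⟨G, h1⟩, h2⟩

end Pool.MFM
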