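import Pool.Agent.H51.MFM.S
import Pool.Agent.H50.MFQ.SYT

/-!
# Board mfm: SYQ (the symbol of a polynomial in the lifts)
-/

set_option autoImplicit false

open Module MvPolynomial

namespace Pool.MFM

open Pool.MFQ

theorem t_syq : SYQStmt := by
  classical
  intro 𝔤 _ _ _ V σ τ ι _ _ b O R P ev D K Q hab had he hx hD hP hev hevX hQ
  have hfe : ∀ φ : MvPolynomial σ ℂ, Sy.fe (fun l => b (Sum.inl l)) φ = evP b (iB σ τ φ) := by
    intro φ
    have h : ∀ ξ : Dual ℂ 𝔤, ((Pi.evalAlgHom ℂ (fun _ : Dual ℂ 𝔤 => ℂ) ξ).comp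
        ((evP b).comp (iB σ τ))) =
        (aeval (fun l => ξ (b (Sum.inl l))) : MvPolynomial σ ℂ →ₐ[ℂ] ℂ) := by
      intro ξ
      apply MvPolynomial.algHom_ext
      intro i
      simp only [evP, iB, AlgHom.comp_apply, aeval_X, Pi.evalAlgHom_apply, rename_X]
    funext ξ
    have h2 := DFunLike.congr_fun (h ξ) φ
    rw [MvPolynomial.aeval_eq_eval] at h2
    exact h2.symm
  have hX : ∀ i : τ, (fun ξ : Dual ℂ 𝔤 => ξ (b (Sum.inr i))) = evP b (X (Sum.inr i)) := by
    intro i
    simp [evP]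
  have h0 : ∀ (m : ℕ) (φ : MvPolynomial σ ℂ), φ.IsHomogeneous m →
      HasSym m (O.e φ) (evP b (iB σ τ φ)) := by
    intro m φ hφ
    rw [← hfe]
    exact Sy.hs_poly _ O.e he m φ hφ
  have h1 : ∀ a, HasSym D (li O (P a)) (evP b (iL (P a))) := by
    intro a
    have h2 : ∀ i ∈ (Finset.univ : Finset τ), HasSym D (O.e ((P a).2 i) * O.x i)
        (evP b (iB σ τ ((P a).2 i)) * evP b (X (Sum.inr i))) := by
      intro i _
      refine Sy.hs_congr (Sy.hs_mul (h0 (D - 1) _ ((hP a).2 i)) ?_) (Nat.sub_add_cancel hD) rfl rfl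
      rw [← hX i, hx i]
      exact Sy.hs_iota _
    have h3 := Sy.hs_add (h0 D _ (hP a).1) (Sy.hs_sum _ _ _ h2)
    refine Sy.hs_congr h3 rfl rfl ?_
    unfold iL
    rw [map_add, map_sum]
    congr 1
    refine Finset.sum_congr rfl fun i _ => ?_
    rw [map_mul]
  obtain ⟨E, hE⟩ : ∃ E : MvPolynomial ι R →+* MvPolynomial (σ ⊕ τ) ℂ,
      E = eval₂Hom ((iB σ τ).comp R.val).toRingHom (fun a => iL (P a)) := ⟨_, rfl⟩
  have hmon : ∀ (n : ℕ) (α : ι →₀ ℕ) (c : R) (m : ℕ), α.degree = n →
      ((c : R) : MvPolynomial σ ℂ).IsHomogeneous m →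
      HasSym (m + n * D) (ev (monomial α c)) (evP b (E (monomial α c))) := by
    intro n
    induction n with
    | zero =>
      intro α c m hα hc
      have h2 : α = 0 := (Finsupp.degree_eq_zero_iff α).mp hα
      subst h2
      rw [← C_apply, hev, zero_mul, add_zero, hE]
      have h3 : (eval₂Hom ((iB σ τ).comp R.val).toRingHom (fun a => iL (P a))) (C c) =
          iB σ τ (c : MvPolynomial σ ℂ) := by
        rw [coe_eval₂Hom, eval₂_C]
        rfl
      rw [h3]
      exact h0 m _ hc
    | succ n ih =>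
      intro α c m hα hc
      have h2 : α ≠ 0 := by
        rintro rfl
        simp at hα
      obtain ⟨a, ha⟩ := Finsupp.support_nonempty_iff.mpr h2
      have h3 : α = (α - Finsupp.single a 1) + Finsupp.single a 1 := by
        refine (tsub_add_cancel_of_le ?_).symm
        rw [Finsupp.single_le_iff]
        exact Nat.one_le_iff_ne_zero.mpr (Finsupp.mem_support_iff.mp ha)
      have h4 : (α - Finsupp.single a 1).degree = n := by
        have h5 : α.degree = (α - Finsupp.single a 1).degree + 1 := by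
          conv_lhs => rw [h3]
          rw [map_add, Finsupp.degree_single]
        omega
      have h6 : monomial α c = monomial (α - Finsupp.single a 1) c * X a := by
        conv_lhs => rw [h3]
        rw [X, monomial_mul, mul_one]
      have h7 := Sy.hs_mul (ih (α - Finsupp.single a 1) c m h4 hc) (h1 a)
      refine Sy.hs_congr h7 (by ring) ?_ ?_
      · rw [h6, map_mul, hevX]
      · rw [h6, map_mul, map_mul]
        congr 2
        rw [hE, coe_eval₂Hom, eval₂_X]
  have hfin : HasSym K (∑ α ∈ Q.support, ev (monomial α (coeff α Q)))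
      (∑ α ∈ Q.support, evP b (E (monomial α (coeff α Q)))) := by
    refine Sy.hs_sum _ _ _ fun α hα => ?_
    obtain ⟨m, hm, hc⟩ := hQ α (mem_support_iff.mp hα)
    exact Sy.hs_congr (hmon _ α _ m rfl hc) hm rfl rfl
  refine Sy.hs_congr hfin rfl ?_ ?_
  · rw [← map_sum, ← Q.as_sum]
  · rw [← map_sum, ← map_sum, ← Q.as_sum, hE]
    rfl

end Pool.MFM
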